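import Pool.Agent.H61.AR.Targets
import Pool.Agent.H60.CM.Basic

/-!
# Row EQF: the limit (helper36)
-/

set_option autoImplicit false

open Set Function MeasureTheory Filter Topology
open scoped Manifold ContDiff Matrix

namespace Pool.Agent.H36.AR

open Pool.Agent.H60.CM Pool.Agent.H61.AR

lemma cont_dot {X : Type} [TopologicalSpace X] {f g : X → V3} (hf : Continuous f)
    (hg : Continuous g) : Continuous fun p => f p ⬝ᵥ g p := by
  simp only [dotProduct, Fin.sum_univ_three]
  have h1 : ∀ k, Continuous fun p => f p k := fun k => (continuous_apply k).comp hf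
  have h2 : ∀ k, Continuous fun p => g p k := fun k => (continuous_apply k).comp hg
  exact (((h1 0).mul (h2 0)).add ((h1 1).mul (h2 1))).add ((h1 2).mul (h2 2))

lemma dot_self_nonneg (y : V3) : 0 ≤ y ⬝ᵥ y := by
  simp only [dotProduct, Fin.sum_univ_three]
  nlinarith [mul_self_nonneg (y 0), mul_self_nonneg (y 1), mul_self_nonneg (y 2)]

theorem pf_EQF (h1 : T_POS) (h2 : T_DNI) : T_EQF := by
  intro D c hlim
  have hx : Continuous D.x := Dat.Sm.cont D D.smx
  have hN : Continuous D.N := Dat.Sm.cont D D.smN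
  have hxc : Continuous fun p => D.x p - c := hx.sub continuous_const
  have hsq : Continuous fun p => sqd (D.x p) c := cont_dot hxc hxc
  have hsq0 : ∀ p, 0 ≤ sqd (D.x p) c := fun p => dot_self_nonneg _
  have hxN : Continuous fun p => (D.x p - c) ⬝ᵥ D.N p := cont_dot hxc hN
  have hgz : Continuous (gz D c) := (continuous_const.mul hxN).add (continuous_const.mul hsq)
  obtain ⟨M, hM⟩ : ∃ M : ℝ, ∀ p, sqd (D.x p) c ≤ M := by
    obtain ⟨M, hM⟩ := (isCompact_range hsq).bddAbove
    exact ⟨M, fun p => hM ⟨p, rfl⟩⟩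
  have hfe : ∀ ε : ℝ, 0 < ε → Continuous (fe D c ε) := by
    intro ε hε
    unfold fe ph
    refine Continuous.add (Continuous.mul ?_ hxN) continuous_const
    refine Continuous.div continuous_const (hsq.add continuous_const) fun p => ?_
    have := hsq0 p
    positivity
  have hkey : ∀ ε : ℝ, 0 < ε → ε ≤ 1 → ∀ p,
      gz D c p ^ 2 ≤ 8 * (M + 1) ^ 2 * fe D c ε p ^ 2 + 2 * (D.H * ε ^ 2) ^ 2 := by
    intro ε hε hε1 p
    have hs := hsq0 p
    have hpos : 0 < sqd (D.x p) c + ε ^ 2 := by positivity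
    have e1 : gz D c p + D.H * ε ^ 2 = 2 * (sqd (D.x p) c + ε ^ 2) * fe D c ε p := by
      unfold gz fe ph
      field_simp
      ring
    have e2 : (sqd (D.x p) c + ε ^ 2) ^ 2 ≤ (M + 1) ^ 2 := by
      have h3 : ε ^ 2 ≤ 1 := by nlinarith
      have h4 := hM p
      exact pow_le_pow_left₀ hpos.le (by linarith) 2
    have e3 : (gz D c p + D.H * ε ^ 2) ^ 2 ≤ 4 * (M + 1) ^ 2 * fe D c ε p ^ 2 := by
      rw [e1]
      have h5 := mul_le_mul_of_nonneg_right e2 (sq_nonneg (fe D c ε p))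
      nlinarith [h5]
    nlinarith [sq_nonneg (gz D c p + 2 * (D.H * ε ^ 2)), e3]
  have hgzi : Integrable (fun p => gz D c p ^ 2) D.μ := Dat.cont_int D (hgz.pow 2)
  have hle : ∀ ε : ℝ, 0 < ε → ε ≤ 1 → ∫ p in D.int, gz D c p ^ 2 ∂D.μ ≤
      8 * (M + 1) ^ 2 * ∫ p in D.int, fe D c ε p ^ 2 ∂D.μ +
        2 * (D.H * ε ^ 2) ^ 2 * (D.μ.restrict D.int).real univ := by
    intro ε hε hε1
    have hfi : Integrable (fun p => fe D c ε p ^ 2) D.μ := Dat.cont_int D ((hfe ε hε).pow 2)
    have h3 : ∫ p in D.int, gz D c p ^ 2 ∂D.μ ≤ ∫ p in D.int,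
        (8 * (M + 1) ^ 2 * fe D c ε p ^ 2 + 2 * (D.H * ε ^ 2) ^ 2) ∂D.μ :=
      integral_mono hgzi.integrableOn
        ((hfi.integrableOn.const_mul _).add (integrable_const _)) (fun p => hkey ε hε hε1 p)
    rw [integral_add (hfi.integrableOn.const_mul _) (integrable_const _),
      integral_const_mul, integral_const, smul_eq_mul] at h3
    linarith [h3, mul_comm ((D.μ.restrict D.int).real univ) (2 * (D.H * ε ^ 2) ^ 2)]
  have hzero : ∫ p in D.int, gz D c p ^ 2 ∂D.μ ≤ 0 := by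
    have ht : Tendsto (fun ε : ℝ => 8 * (M + 1) ^ 2 * ∫ p in D.int, fe D c ε p ^ 2 ∂D.μ +
        2 * (D.H * ε ^ 2) ^ 2 * (D.μ.restrict D.int).real univ) (𝓝[>] 0)
        (𝓝 (8 * (M + 1) ^ 2 * 0 +
          2 * (D.H * (0 : ℝ) ^ 2) ^ 2 * (D.μ.restrict D.int).real univ)) := by
      refine (hlim.const_mul _).add ?_
      refine Tendsto.mono_left ?_ nhdsWithin_le_nhds
      refine Continuous.tendsto ?_ 0
      fun_prop
    have h3 : (8 * (M + 1) ^ 2 * 0 +
          2 * (D.H * (0 : ℝ) ^ 2) ^ 2 * (D.μ.restrict D.int).real univ) = 0 := by ring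
    rw [h3] at ht
    refine ge_of_tendsto ht ?_
    have h4 : ∀ᶠ ε : ℝ in 𝓝[>] 0, ε ∈ Ioc (0 : ℝ) 1 := Ioc_mem_nhdsGT one_pos
    filter_upwards [h4] with ε hε
    exact hle ε hε.1 hε.2
  have hint : ∀ p ∈ D.int, gz D c p = 0 := by
    intro p hp
    obtain ⟨χ, hχ0, hχ1, hχ⟩ := exists_continuous_zero_one_of_isClosed
      (s := (D.int)ᶜ) (t := {p}) (D.int_open.isClosed_compl) isClosed_singleton
      (by
        rw [Set.disjoint_singleton_right]
        exact fun h => h hp)
    have hF : Continuous fun q => χ q * gz D c q ^ 2 := χ.continuous.mul (hgz.pow 2)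
    have hF0 : ∀ q, 0 ≤ χ q * gz D c q ^ 2 := fun q => mul_nonneg (hχ q).1 (sq_nonneg _)
    have h3 : ∫ q, χ q * gz D c q ^ 2 ∂D.μ = 0 := by
      refine le_antisymm ?_ (integral_nonneg hF0)
      rw [← setIntegral_eq_integral_of_forall_compl_eq_zero (s := D.int) (by
        intro q hq
        rw [hχ0 hq]
        simp)]
      refine le_trans ?_ hzero
      refine integral_mono (Dat.cont_int D hF).integrableOn hgzi.integrableOn fun q => ?_
      exact mul_le_of_le_one_left (sq_nonneg _) (hχ q).2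
    have h4 := h1 D _ hF hF0 h3 p hp
    rw [hχ1 (mem_singleton p)] at h4
    simpa using h4
  have hall : gz D c = fun _ => 0 :=
    Continuous.ext_on (h2 D) hgz continuous_const fun p hp => hint p hp
  intro p
  rw [hall]

end Pool.Agent.H36.AR
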