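import Pool.Agent.H61.AR.Targets
import Pool.Agent.H60.CM.Basic
import Pool.Agent.H36.AR.EQF

/-!
# Row DIN: the density at interior points (helper36)
-/

set_option autoImplicit false

open Set Function MeasureTheory Filter Topology
open scoped Manifold ContDiff Matrix

namespace Pool.Agent.H36.AR

open Pool.Agent.H60.CM Pool.Agent.H61.AR

lemma e2_norm (z : E2) : ‖z‖ ^ 2 = z 0 ^ 2 + z 1 ^ 2 := by
  rw [EuclideanSpace.norm_sq_eq, Fin.sum_univ_two]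
  simp [sq_abs]

lemma e2_decomp (z : E2) : z = z 0 • ee 0 + z 1 • ee 1 := by
  ext i
  fin_cases i <;> simp [ee]

lemma lin_dot (L0 L1 : V3) (a b : ℝ) : (a • L0 + b • L1) ⬝ᵥ (a • L0 + b • L1) =
    a ^ 2 * (L0 ⬝ᵥ L0) + 2 * a * b * (L0 ⬝ᵥ L1) + b ^ 2 * (L1 ⬝ᵥ L1) := by
  simp only [dotProduct, Fin.sum_univ_three, Pi.add_apply, Pi.smul_apply, smul_eq_mul]
  ring

lemma cross_pos {L0 L1 : V3} (h : L0 ⨯₃ L1 ≠ 0) : 0 < (L0 ⨯₃ L1) ⬝ᵥ (L0 ⨯₃ L1) := by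
  refine lt_of_le_of_ne (dot_self_nonneg _) fun h0 => h ?_
  exact dotProduct_self_eq_zero.1 h0.symm

lemma quad (L0 L1 : V3) (h : L0 ⨯₃ L1 ≠ 0) : ∃ m : ℝ, 0 < m ∧ ∀ z : E2,
    m * ‖z‖ ^ 2 ≤ (z 0 • L0 + z 1 • L1) ⬝ᵥ (z 0 • L0 + z 1 • L1) := by
  have hpos := cross_pos h
  rw [cross_dot_cross] at hpos
  have hsym : L1 ⬝ᵥ L0 = L0 ⬝ᵥ L1 := dotProduct_comm _ _
  rw [hsym] at hpos
  set E := L0 ⬝ᵥ L0 with hE
  set F := L0 ⬝ᵥ L1 with hF
  set G := L1 ⬝ᵥ L1 with hG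
  have hE0 : 0 ≤ E := dot_self_nonneg _
  have hG0 : 0 ≤ G := dot_self_nonneg _
  have hEG : 0 < E + G := by
    by_contra hcon
    push Not at hcon
    have h1 : E = 0 := by linarith
    rw [h1] at hpos
    nlinarith [sq_nonneg F]
  refine ⟨(E * G - F * F) / (E + G), div_pos hpos hEG, fun z => ?_⟩
  rw [lin_dot, e2_norm, div_mul_eq_mul_div, div_le_iff₀ hEG]
  nlinarith [sq_nonneg (E * z 0 + F * z 1), sq_nonneg (F * z 0 + G * z 1)]

lemma dot_add_le (a R : V3) (δ : ℝ) (hδ : 0 < δ) : (a + R) ⬝ᵥ (a + R) ≤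
    (1 + δ / 2) * (a ⬝ᵥ a) + (1 + 2 / δ) * (R ⬝ᵥ R) := by
  have h1 := dot_self_nonneg ((δ / 2) • a - R)
  have h2 : ((δ / 2) • a - R) ⬝ᵥ ((δ / 2) • a - R) =
      (δ / 2) ^ 2 * (a ⬝ᵥ a) - δ * (a ⬝ᵥ R) + R ⬝ᵥ R := by
    simp only [dotProduct, Fin.sum_univ_three, Pi.sub_apply, Pi.smul_apply, smul_eq_mul]
    ring
  have h3 : (a + R) ⬝ᵥ (a + R) = a ⬝ᵥ a + 2 * (a ⬝ᵥ R) + R ⬝ᵥ R := by
    simp only [dotProduct, Fin.sum_univ_three, Pi.add_apply]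
    ring
  rw [h2] at h1
  have h4 : 0 ≤ (2 / δ) * ((δ / 2) ^ 2 * (a ⬝ᵥ a) - δ * (a ⬝ᵥ R) + R ⬝ᵥ R) :=
    mul_nonneg (by positivity) h1
  have h5 : (2 / δ) * ((δ / 2) ^ 2 * (a ⬝ᵥ a) - δ * (a ⬝ᵥ R) + R ⬝ᵥ R) =
      δ / 2 * (a ⬝ᵥ a) - 2 * (a ⬝ᵥ R) + 2 / δ * (R ⬝ᵥ R) := by
    field_simp
  rw [h5] at h4
  rw [h3]
  linarith

lemma dot_le_norm (R : V3) : R ⬝ᵥ R ≤ 3 * ‖R‖ ^ 2 := by
  have h : ∀ i, R i * R i ≤ ‖R‖ ^ 2 := by
    intro i
    have h1 : |R i| ≤ ‖R‖ := norm_le_pi_norm R i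
    have h2 : |R i| ^ 2 ≤ ‖R‖ ^ 2 := pow_le_pow_left₀ (abs_nonneg _) h1 2
    rw [sq_abs] at h2
    nlinarith
  simp only [dotProduct, Fin.sum_univ_three]
  linarith [h 0, h 1, h 2]

/-- the bound of the distance near a point -/
lemma near_bound (g : E2 → V3) (y : E2) (hg : DifferentiableAt ℝ g y) (δ : ℝ) (hδ : 0 < δ)
    (h : pd g y 0 ⨯₃ pd g y 1 ≠ 0) : ∀ᶠ z in 𝓝 (0 : E2),
    (g (y + z) - g y) ⬝ᵥ (g (y + z) - g y) ≤
      (1 + δ) * ((z 0 • pd g y 0 + z 1 • pd g y 1) ⬝ᵥ (z 0 • pd g y 0 + z 1 • pd g y 1)) := by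
  obtain ⟨m, hm, hq⟩ := quad _ _ h
  set κ : ℝ := Real.sqrt (δ * m / (6 * (1 + 2 / δ))) with hκ
  have hκ0 : 0 < δ * m / (6 * (1 + 2 / δ)) := by positivity
  have hκp : 0 < κ := Real.sqrt_pos.2 hκ0
  have hκ2 : κ ^ 2 = δ * m / (6 * (1 + 2 / δ)) := Real.sq_sqrt hκ0.le
  have h1 := (hasFDerivAt_iff_isLittleO_nhds_zero.1 hg.hasFDerivAt).def hκp
  filter_upwards [h1] with z hz
  set R := g (y + z) - g y - fderiv ℝ g y z with hR
  have h2 : fderiv ℝ g y z = z 0 • pd g y 0 + z 1 • pd g y 1 := by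
    conv_lhs => rw [e2_decomp z]
    rw [map_add, map_smul, map_smul]
    rfl
  have h3 : g (y + z) - g y = (z 0 • pd g y 0 + z 1 • pd g y 1) + R := by
    rw [hR, h2]
    abel
  rw [h3]
  refine (dot_add_le _ _ δ hδ).trans ?_
  have h4 : R ⬝ᵥ R ≤ 3 * (κ ^ 2 * ‖z‖ ^ 2) := by
    refine (dot_le_norm R).trans ?_
    have h5 : ‖R‖ ^ 2 ≤ (κ * ‖z‖) ^ 2 := pow_le_pow_left₀ (norm_nonneg _) hz 2
    rw [mul_pow] at h5
    linarith
  have h5 : (1 + 2 / δ) * (R ⬝ᵥ R) ≤ δ / 2 * (m * ‖z‖ ^ 2) := by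
    have h6 : (1 + 2 / δ) * (R ⬝ᵥ R) ≤ (1 + 2 / δ) * (3 * (κ ^ 2 * ‖z‖ ^ 2)) :=
      mul_le_mul_of_nonneg_left h4 (by positivity)
    refine h6.trans (le_of_eq ?_)
    rw [hκ2]
    field_simp
    ring
  have h6 := mul_le_mul_of_nonneg_left (hq z) (by positivity : (0 : ℝ) ≤ δ / 2)
  linarith

theorem pf_DIN (h1 : T_PAT) (h2 : T_ARE) (h3 : T_DLM) (h4 : T_PDF) : T_DIN := by
  intro D p U η hp hU hpU hη
  obtain ⟨O, ψ, y, hP, hyO, hψy, hψU⟩ := h1 D p U hp hU hpU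
  set g : E2 → V3 := D.x ∘ ψ with hg
  have hgs : ContDiffOn ℝ ∞ g O := by
    obtain ⟨_, _, _, _, _, h⟩ := h4 D O ψ hP y hyO
    exact (h V3 D.x D.smx).1
  have himm : pd g y 0 ⨯₃ pd g y 1 ≠ 0 := hP.imm y hyO
  set L0 := pd g y 0 with hL0
  set L1 := pd g y 1 with hL1
  obtain ⟨δ, hδ0, hδ1, hδ⟩ := h3 L0 L1 η himm hη
  have hOn : O ∈ 𝓝 y := hP.isOpen.mem_nhds hyO
  have hgd : DifferentiableAt ℝ g y :=
    (hgs.contDiffAt hOn).differentiableAt (by simp)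
  have hfd : ContinuousOn (fderiv ℝ g) O :=
    hgs.continuousOn_fderiv_of_isOpen hP.isOpen (by simp)
  have hpd : ∀ i, ContinuousOn (fun y' => pd g y' i) O := fun i =>
    hfd.clm_apply continuousOn_const
  have hcr : ContinuousOn (fun y' => pd g y' 0 ⨯₃ pd g y' 1) O := by
    rw [continuousOn_pi]
    have hc : ∀ i k, ContinuousOn (fun y' => pd g y' i k) O := fun i k =>
      (continuousOn_pi.1 (hpd i)) k
    intro k
    fin_cases k
    · simp only [cross_apply]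
      exact ((hc 0 1).mul (hc 1 2)).sub ((hc 0 2).mul (hc 1 1))
    · simp only [cross_apply]
      exact ((hc 0 2).mul (hc 1 0)).sub ((hc 0 0).mul (hc 1 2))
    · simp only [cross_apply]
      exact ((hc 0 0).mul (hc 1 1)).sub ((hc 0 1).mul (hc 1 0))
  have haw : ContinuousOn (aw g) O := by
    unfold aw
    refine Real.continuous_sqrt.comp_continuousOn ?_
    have hc : ∀ k, ContinuousOn (fun y' => (pd g y' 0 ⨯₃ pd g y' 1) k) O :=
      continuousOn_pi.1 hcr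
    simp only [dotProduct, Fin.sum_univ_three]
    exact (((hc 0).mul (hc 0)).add ((hc 1).mul (hc 1))).add ((hc 2).mul (hc 2))
  set J := Real.sqrt ((L0 ⨯₃ L1) ⬝ᵥ (L0 ⨯₃ L1)) with hJ
  have hJ0 : 0 < J := Real.sqrt_pos.2 (cross_pos himm)
  have hawy : aw g y = J := rfl
  have htr : Tendsto (fun z : E2 => y + z) (𝓝 0) (𝓝 y) := by
    have : Tendsto (fun z : E2 => y + z) (𝓝 0) (𝓝 (y + 0)) :=
      (continuous_const.add continuous_id).tendsto 0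
    rwa [add_zero] at this
  have hn1 : ∀ᶠ z in 𝓝 (0 : E2), y + z ∈ O := htr hOn
  have hn2 := near_bound g y hgd δ hδ0 himm
  have hn3 : ∀ᶠ z in 𝓝 (0 : E2), (1 - δ) * J ≤ aw g (y + z) ∧ aw g (y + z) ≤ 2 * J := by
    have hca : ContinuousAt (aw g) y := haw.continuousAt hOn
    have h5 : ∀ᶠ y' in 𝓝 y, aw g y' ∈ Ioo ((1 - δ) * J) (2 * J) := by
      refine hca (Ioo_mem_nhds ?_ ?_)
      · rw [hawy]; nlinarith
      · rw [hawy]; linarith
    filter_upwards [htr h5] with z hz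
    exact ⟨hz.1.le, hz.2.le⟩
  obtain ⟨ρ', hρ', hball⟩ := Metric.eventually_nhds_iff_ball.1 (hn1.and (hn2.and hn3))
  set ρ : ℝ := ρ' / 2 with hρ
  have hρ0 : 0 < ρ := by positivity
  have hBx : ∀ z ∈ Bx ρ, z ∈ Metric.ball (0 : E2) ρ' := by
    intro z hz
    rw [mem_ball_zero_iff]
    have h5 : ‖z‖ ^ 2 < ρ' ^ 2 := by
      rw [e2_norm]
      have h6 : z 0 ^ 2 < ρ ^ 2 := by
        rw [← sq_abs]; exact pow_lt_pow_left₀ hz.1 (abs_nonneg _) (by norm_num)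
      have h7 : z 1 ^ 2 < ρ ^ 2 := by
        rw [← sq_abs]; exact pow_lt_pow_left₀ hz.2 (abs_nonneg _) (by norm_num)
      have h8 : ρ ^ 2 = ρ' ^ 2 / 4 := by rw [hρ]; ring
      nlinarith
    exact lt_of_pow_lt_pow_left₀ 2 hρ'.le h5
  have hBo : IsOpen (Bx ρ) := by
    have h5 : Continuous fun z : E2 => |z 0| := by fun_prop
    have h6 : Continuous fun z : E2 => |z 1| := by fun_prop
    exact (isOpen_lt h5 continuous_const).inter (isOpen_lt h6 continuous_const)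
  -- the translated box
  set O' : Set E2 := (fun z : E2 => y + z) '' Bx ρ with hO'
  have hpre : (fun z : E2 => y + z) ⁻¹' O' = Bx ρ :=
    preimage_image_eq _ (add_right_injective y)
  have hO'o : IsOpen O' := (Homeomorph.addLeft y).isOpenMap _ hBo
  have hO'O : O' ⊆ O := by
    rintro _ ⟨z, hz, rfl⟩
    exact (hball z (hBx z hz)).1
  have hP' : D.Pch O' ψ := ⟨hO'o, hP.smooth.mono hO'O, hP.inj.mono hO'O,
    fun V hV hVo => hP.im V (hV.trans hO'O) hVo, (image_mono hO'O).trans hP.int,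
    fun y' hy' => hP.imm y' (hO'O hy')⟩
  have hcX : ContinuousOn (fun z => g (y + z) - D.x p) (Bx ρ) := by
    refine ContinuousOn.sub ?_ continuousOn_const
    exact hgs.continuousOn.comp (by fun_prop) fun z hz => (hball z (hBx z hz)).1
  have hcw : ContinuousOn (fun z => aw g (y + z)) (Bx ρ) :=
    haw.comp (by fun_prop) fun z hz => (hball z (hBx z hz)).1
  have hgy : g y = D.x p := by rw [hg, comp_apply, hψy]
  filter_upwards [hδ ρ hρ0, self_mem_nhdsWithin] with ε hε hε0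
  have hε0' : (0 : ℝ) < ε := hε0
  have h5 := hε (fun z => g (y + z) - D.x p) (fun z => aw g (y + z)) (Bx ρ) Real.pi
    (Or.inl ⟨rfl, rfl⟩) hcX hcw (fun z hz => by
      have h6 := hball z (hBx z hz)
      refine ⟨?_, h6.2.2.1, h6.2.2.2⟩
      have h7 := h6.2.1
      rw [hgy] at h7
      exact h7)
  refine h5.trans ?_
  have hx : Continuous D.x := Dat.Sm.cont D D.smx
  have hsq : Continuous fun q => sqd (D.x q) (D.x p) :=
    cont_dot (hx.sub continuous_const) (hx.sub continuous_const)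
  have hph : Continuous fun q => ε ^ 2 * ph D (D.x p) ε q ^ 2 := by
    unfold ph
    refine continuous_const.mul ((Continuous.div continuous_const
      (hsq.add continuous_const) fun q => ?_).pow 2)
    have := dot_self_nonneg (D.x q - D.x p)
    have h8 : 0 ≤ sqd (D.x q) (D.x p) := this
    have h9 : 0 < ε ^ 2 := by positivity
    exact (add_pos_of_nonneg_of_pos h8 h9).ne'
  have h6 : ∫ z in Bx ρ, ε ^ 2 * (1 / ((g (y + z) - D.x p) ⬝ᵥ (g (y + z) - D.x p) +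
      ε ^ 2)) ^ 2 * aw g (y + z) = ∫ q in ψ '' O', ε ^ 2 * ph D (D.x p) ε q ^ 2 ∂D.μ := by
    rw [h2 D O' ψ hP' (fun q => ε ^ 2 * ph D (D.x p) ε q ^ 2) hph.measurable]
    have h7 := (measurePreserving_add_left (volume : Measure E2) y).setIntegral_preimage_emb
      (measurableEmbedding_addLeft y)
      (fun y' => (ε ^ 2 * ph D (D.x p) ε (ψ y') ^ 2) * aw (D.x ∘ ψ) y') O'
    rw [hpre] at h7
    exact h7
  rw [h6]
  refine setIntegral_mono_set (Dat.cont_int D hph).integrableOn ?_ ?_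
  · exact Eventually.of_forall fun q => by positivity
  · refine LE.le.eventuallyLE ?_
    rintro _ ⟨y', hy', rfl⟩
    exact ⟨hP'.int ⟨y', hy', rfl⟩, hψU ⟨y', hO'O hy', rfl⟩⟩

end Pool.Agent.H36.AR
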