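import Pool.Agent.H61.AR.Targets

/-!
# Row SCO: Stokes' formula with constant orientation (helper36)
-/

set_option autoImplicit false

open Set Function MeasureTheory Filter Topology
open scoped Manifold ContDiff Matrix

namespace Pool.Agent.H36.AR

open Pool.Agent.H60.CM Pool.Agent.H61.AR

/-- powers of the complex coordinate -/
noncomputable def cB (n : ℕ) (y : V3) : ℂ := ((y 0 : ℂ) + (y 1 : ℂ) * Complex.I) ^ n

lemma cB_smooth (n : ℕ) : ContDiff ℝ ∞ (cB n) := by
  unfold cB
  have h0 : ContDiff ℝ ∞ (fun y : V3 => (y 0 : ℂ)) :=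
    Complex.ofRealCLM.contDiff.comp (contDiff_apply ℝ ℝ (0 : Fin 3))
  have h1 : ContDiff ℝ ∞ (fun y : V3 => (y 1 : ℂ)) :=
    Complex.ofRealCLM.contDiff.comp (contDiff_apply ℝ ℝ (1 : Fin 3))
  exact (h0.add (h1.mul contDiff_const)).pow n

lemma cB_cpt (n : ℕ) (r τ : ℝ) : cB n (cpt r τ) =
    ((r ^ n * Real.cos (n * τ) : ℝ) : ℂ) + ((r ^ n * Real.sin (n * τ) : ℝ) : ℂ) * Complex.I := by
  unfold cB cpt
  simp only [Matrix.cons_val_zero, Matrix.cons_val_one]
  have h1 : ((r * Real.cos τ : ℝ) : ℂ) + ((r * Real.sin τ : ℝ) : ℂ) * Complex.I =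
      (r : ℂ) * (Complex.cos τ + Complex.sin τ * Complex.I) := by
    push_cast
    ring
  rw [h1, mul_pow, Complex.cos_add_sin_mul_I_pow]
  push_cast
  ring

theorem pf_SCO (h1 : T_POU) (h2 : T_FOU) : T_SCO := by
  intro D γ hγ
  obtain ⟨σ, hc, hp, hb, hf⟩ := h1 D γ hγ
  have hr : 0 < D.r := D.cmc.r_pos
  have hone : ∀ B : V3 → ℝ, ContDiff ℝ ∞ B →
      ∫ θ in (0 : ℝ)..(2 * Real.pi), σ θ * (1 * deriv (fun τ => B (cpt D.r τ)) θ) = 0 := by
    intro B hB
    have h3 := hf (fun _ => 1) B contMDiff_const hB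
    rw [← h3]
    have h4 : ∀ p : D.S, br D.x D.N (fun _ => (1 : ℝ)) (fun q => B (D.x q)) p = 0 := by
      intro p
      have h5 : ∀ i, dd (fun _ : D.S => (1 : ℝ)) p i = 0 := by
        intro i
        unfold dd
        rw [mfderiv_const]
        rfl
      unfold br brk
      rw [h5, h5]
      simp
    simp only [h4, integral_zero]
  have hFou : ∀ n : ℕ, 0 < n → ∫ θ in (0 : ℝ)..(2 * Real.pi), σ θ * Real.cos (n * θ) = 0 ∧
      ∫ θ in (0 : ℝ)..(2 * Real.pi), σ θ * Real.sin (n * θ) = 0 := by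
    intro n hn
    have hn0 : (n : ℝ) ≠ 0 := by exact_mod_cast hn.ne'
    have hrn : D.r ^ n ≠ 0 := pow_ne_zero _ hr.ne'
    constructor
    · have h3 := hone (fun y => (cB n y).im) (Complex.imCLM.contDiff.comp (cB_smooth n))
      have h4 : (fun τ => (cB n (cpt D.r τ)).im) = fun τ => D.r ^ n * Real.sin (n * τ) := by
        funext τ
        rw [cB_cpt, Complex.add_im, Complex.mul_im, Complex.I_im, Complex.I_re]
        simp only [Complex.ofReal_re, Complex.ofReal_im]
        ring
      have h5 : ∀ θ, deriv (fun τ => (cB n (cpt D.r τ)).im) θ =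
          D.r ^ n * (Real.cos (n * θ) * n) := by
        intro θ
        rw [h4]
        have h6 : HasDerivAt (fun τ : ℝ => (n : ℝ) * τ) n θ := by
          simpa using (hasDerivAt_id θ).const_mul (n : ℝ)
        exact ((h6.sin).const_mul (D.r ^ n)).deriv
      simp only [h5] at h3
      have h6 : ∀ θ, σ θ * (1 * (D.r ^ n * (Real.cos (n * θ) * n))) =
          (D.r ^ n * n) * (σ θ * Real.cos (n * θ)) := fun θ => by ring
      simp only [h6, intervalIntegral.integral_const_mul] at h3
      exact (mul_eq_zero.1 h3).resolve_left (mul_ne_zero hrn hn0)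
    · have h3 := hone (fun y => (cB n y).re) (Complex.reCLM.contDiff.comp (cB_smooth n))
      have h4 : (fun τ => (cB n (cpt D.r τ)).re) = fun τ => D.r ^ n * Real.cos (n * τ) := by
        funext τ
        rw [cB_cpt, Complex.add_re, Complex.mul_re, Complex.I_im, Complex.I_re]
        simp only [Complex.ofReal_re, Complex.ofReal_im]
        ring
      have h5 : ∀ θ, deriv (fun τ => (cB n (cpt D.r τ)).re) θ =
          D.r ^ n * (-Real.sin (n * θ) * n) := by
        intro θ
        rw [h4]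
        have h6 : HasDerivAt (fun τ : ℝ => (n : ℝ) * τ) n θ := by
          simpa using (hasDerivAt_id θ).const_mul (n : ℝ)
        exact ((h6.cos).const_mul (D.r ^ n)).deriv
      simp only [h5] at h3
      have h6 : ∀ θ, σ θ * (1 * (D.r ^ n * (-Real.sin (n * θ) * n))) =
          (-(D.r ^ n * n)) * (σ θ * Real.sin (n * θ)) := fun θ => by ring
      simp only [h6, intervalIntegral.integral_const_mul] at h3
      exact (mul_eq_zero.1 h3).resolve_left (neg_ne_zero.2 (mul_ne_zero hrn hn0))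
  obtain ⟨s, hs⟩ := h2 σ hc hp hFou
  refine ⟨s, ?_, ?_⟩
  · rw [← hs 0]
    exact hb 0
  · intro f B hf' hB
    rw [hf f B hf' hB]
    simp only [hs, intervalIntegral.integral_const_mul]

end Pool.Agent.H36.AR
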